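import Pool.Agent.BEL.StmtsP

/-!
# Squad BEL, row TRL: translation of the abstract solutions to the domain
-/

set_option autoImplicit false

namespace Pool.Agent.BEL.H62

open Set Filter Topology MeasureTheory
open scoped InnerProductSpace ENNReal
open Pool.Agent.BE01 Pool.Agent.BEL

section ext

variable {H : Type} [NormedAddCommGroup H] [InnerProductSpace ℝ H]

theorem hb_ext (b : HilbertBasis ℕ ℝ H) {x y : H} (h : ∀ k, ⟪b k, x⟫_ℝ = ⟪b k, y⟫_ℝ) : x = y := by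
  apply b.repr.injective
  ext k
  rw [b.repr_apply_apply, b.repr_apply_apply]
  exact h k

end ext

variable {d : ℕ} {Ω : Set (En d)}

theorem inner_UU (b : HilbertBasis ℕ ℝ (Lp ℝ 2 (mu Ω))) (e : HilbertBasis ℕ ℝ (VV Ω)) (k : ℕ)
    (x : Lp ℝ 2 (mu Ω)) : ⟪e k, UU b e x⟫_ℝ = ⟪b k, x⟫_ℝ := by
  rw [← e.repr_apply_apply, ← b.repr_apply_apply]
  have h : e.repr (UU b e x) = b.repr x := by
    show e.repr (e.repr.symm (b.repr x)) = b.repr x
    exact e.repr.apply_symm_apply _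
  rw [h]

/-- the norm of `L^2` as an integral -/
theorem norm_sq_eq {F : Type} [NormedAddCommGroup F] [InnerProductSpace ℝ F] {α : Type}
    [MeasurableSpace α] {μ : Measure α} (f : Lp F 2 μ) :
    ‖f‖ ^ 2 = ∫ x, ‖f x‖ ^ 2 ∂μ := by
  rw [← real_inner_self_eq_norm_sq, MeasureTheory.L2.inner_def]
  refine integral_congr_ae (Eventually.of_forall fun x => ?_)
  exact real_inner_self_eq_norm_sq _

theorem integrable_sq {F : Type} [NormedAddCommGroup F] [InnerProductSpace ℝ F] {α : Type}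
    [MeasurableSpace α] {μ : Measure α} (f : Lp F 2 μ) :
    Integrable (fun x => ‖f x‖ ^ 2) μ := by
  have h := MeasureTheory.L2.integrable_inner (𝕜 := ℝ) f f
  refine h.congr (Eventually.of_forall fun x => ?_)
  exact real_inner_self_eq_norm_sq _

/-- TRL -/
theorem trl (hT : TrwStmt) : TrlStmt := by
  intro d Ω ι b e om a al z1 z2 hd hΩ hE hG hS ha hal hda hc
  have hen : ∀ t, energy Ω z2 (fun t => ((UU b e (z1 t) : VV Ω) : Lp (En d) 2 (mu Ω))) t =
      enr (mu Ω) z1 z2 t := by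
    intro t
    have h1 : ‖((UU b e (z1 t) : VV Ω) : Lp (En d) 2 (mu Ω))‖ = ‖z1 t‖ :=
      (UU b e).norm_map (z1 t)
    show ∫ x, z2 t x ^ 2 + ‖((UU b e (z1 t) : VV Ω) : Lp (En d) 2 (mu Ω)) x‖ ^ 2 ∂(mu Ω) =
      ‖z1 t‖ ^ 2 + ‖z2 t‖ ^ 2
    rw [← h1, norm_sq_eq, norm_sq_eq, add_comm (∫ x, _ ∂(mu Ω)), ← integral_add]
    · refine integral_congr_ae (Eventually.of_forall fun x => ?_)
      show z2 t x ^ 2 + _ = ‖z2 t x‖ ^ 2 + _
      rw [Real.norm_eq_abs, sq_abs]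
    · exact integrable_sq _
    · exact integrable_sq _
  refine ⟨⟨?_, hc.c2, ?_, ?_, ?_, ?_, ?_⟩, hen⟩
  · intro t _
    rw [hG]
    exact ⟨(UU b e (z1 t)).2, rfl⟩
  · exact continuous_subtype_val.comp_continuousOn ((UU b e).continuous.comp_continuousOn hc.c1)
  · intro t ht
    have hint : IntervalIntegrable z2 volume 0 t :=
      (hc.c2.mono Icc_subset_Ici_self).intervalIntegrable_of_Icc ht
    refine hb_ext b fun k => ?_
    show ⟪b k, ι (UU b e (z1 t))⟫_ℝ = ⟪b k, ι (UU b e (z1 0)) + ∫ s in (0:ℝ)..t, z2 s⟫_ℝ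
    rw [inner_add_right, hS.rel, hS.rel, inner_UU, inner_UU, hc.m1 k t ht]
    have h1 := ContinuousLinearMap.intervalIntegral_comp_comm (innerSL ℝ (b k)) hint
    have h2 : ⟪b k, ∫ s in (0:ℝ)..t, z2 s⟫_ℝ = ∫ s in (0:ℝ)..t, ⟪b k, z2 s⟫_ℝ := h1.symm
    rw [h2, mul_add, inv_mul_cancel_left₀ (hS.pos k).ne']
  · intro s t hs hst
    rw [hen, hen]
    exact hc.en s t hs hst
  · intro ψ hψ t ht
    exact (hT d Ω ι b e om a al z1 z2 hd hΩ hE hS ha hal hda hc ψ hψ t ht).1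
  · intro ψ hψ t ht
    exact (hT d Ω ι b e om a al z1 z2 hd hΩ hE hS ha hal hda hc ψ hψ t ht).2

end Pool.Agent.BEL.H62
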