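import Pool.Agent.BEL.StmtsC

/-!
# Squad BEL, row EX2: a Hilbert-Schmidt bound
-/

set_option autoImplicit false

namespace Pool.Agent.BEL.H62

open Set Filter Topology MeasureTheory
open scoped InnerProductSpace ENNReal
open Pool.Agent.BEL

section

variable {H : Type} [NormedAddCommGroup H] [InnerProductSpace ℝ H] {κ : Type}

/-- Parseval -/
theorem hs_par (b : HilbertBasis κ ℝ H) (x : H) :
    HasSum (fun k => ⟪b k, x⟫_ℝ ^ 2) (‖x‖ ^ 2) := by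
  have h := b.hasSum_inner_mul_inner x x
  rw [real_inner_self_eq_norm_sq] at h
  have e : (fun k => ⟪b k, x⟫_ℝ ^ 2) = fun k => ⟪x, b k⟫_ℝ * ⟪b k, x⟫_ℝ := by
    funext k
    rw [real_inner_comm x (b k), sq]
  rw [e]
  exact h

theorem PJ_apply (b : HilbertBasis κ ℝ H) (J : Finset κ) (v : H) :
    PJ b J v = ∑ j ∈ J, ⟪b j, v⟫_ℝ • b j := by
  unfold PJ
  rw [sum_apply]
  rfl

theorem inner_PJ (b : HilbertBasis κ ℝ H) (J : Finset κ) (z w : H) :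
    ⟪z, PJ b J w⟫_ℝ = ∑ j ∈ J, ⟪b j, z⟫_ℝ * ⟪b j, w⟫_ℝ := by
  rw [PJ_apply, inner_sum]
  refine Finset.sum_congr rfl fun j _ => ?_
  rw [real_inner_smul_right, real_inner_comm z (b j), mul_comm]

theorem bessel (b : HilbertBasis κ ℝ H) (J : Finset κ) (w : H) :
    ∑ j ∈ J, ⟪b j, w⟫_ℝ ^ 2 ≤ ‖w‖ ^ 2 := by
  have h := b.orthonormal.sum_inner_products_le w (s := J)
  refine le_trans (le_of_eq ?_) h
  refine Finset.sum_congr rfl fun j _ => ?_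
  rw [Real.norm_eq_abs, sq_abs]

theorem key (b : HilbertBasis κ ℝ H) (J : Finset κ) {B : ℝ} {r : ℕ} (u : Fin r → H)
    (hB : 0 ≤ B) (hP : ∀ i, PJ b J (u i) = u i)
    (hu : ∀ a : Fin r → ℝ, ‖∑ i, a i • u i‖ ^ 2 ≤ B * ∑ i, a i ^ 2) (z : H) :
    ∑ i, ⟪z, u i⟫_ℝ ^ 2 ≤ B * ∑ j ∈ J, ⟪b j, z⟫_ℝ ^ 2 := by
  set S : ℝ := ∑ i, ⟪z, u i⟫_ℝ ^ 2 with hS
  set D : ℝ := ∑ j ∈ J, ⟪b j, z⟫_ℝ ^ 2 with hD
  set w : H := ∑ i, ⟪z, u i⟫_ℝ • u i with hw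
  have hD0 : 0 ≤ D := Finset.sum_nonneg fun j _ => sq_nonneg _
  have hS0 : 0 ≤ S := Finset.sum_nonneg fun j _ => sq_nonneg _
  have hPw : PJ b J w = w := by
    rw [hw, map_sum]
    refine Finset.sum_congr rfl fun i _ => ?_
    rw [map_smul, hP]
  have h1 : S = ⟪z, w⟫_ℝ := by
    rw [hw, inner_sum, hS]
    refine Finset.sum_congr rfl fun i _ => ?_
    rw [real_inner_smul_right, sq]
  have h2 : S = ∑ j ∈ J, ⟪b j, z⟫_ℝ * ⟪b j, w⟫_ℝ := by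
    rw [h1, ← inner_PJ, hPw]
  have h3 : S ^ 2 ≤ D * ‖w‖ ^ 2 := by
    rw [h2]
    refine (Finset.sum_mul_sq_le_sq_mul_sq _ _ _).trans ?_
    exact mul_le_mul_of_nonneg_left (bessel b J w) hD0
  have h4 : ‖w‖ ^ 2 ≤ B * S := hu _
  have h5 : S ^ 2 ≤ (B * D) * S := by
    calc S ^ 2 ≤ D * ‖w‖ ^ 2 := h3
      _ ≤ D * (B * S) := mul_le_mul_of_nonneg_left h4 hD0
      _ = (B * D) * S := by ring
  rcases hS0.eq_or_lt with h | h
  · rw [← h]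
    exact mul_nonneg hB hD0
  · rw [sq] at h5
    exact le_of_mul_le_mul_right h5 h

end

/-- EX2 -/
theorem ex2 : Ex2Stmt := by
  intro H _ _ _ κ b J B r u T hB hP hu
  have h1 : ∀ i, HasSum (fun k => ⟪b k, T (u i)⟫_ℝ ^ 2) (‖T (u i)‖ ^ 2) :=
    fun i => hs_par b (T (u i))
  have h2 : HasSum (fun k => ∑ i, ⟪b k, T (u i)⟫_ℝ ^ 2) (∑ i, ‖T (u i)‖ ^ 2) :=
    hasSum_sum fun i _ => h1 i
  have h3 : HasSum (fun k => B * ∑ j ∈ J, ⟪b k, T (b j)⟫_ℝ ^ 2)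
      (B * ∑ j ∈ J, ‖T (b j)‖ ^ 2) :=
    (hasSum_sum fun j _ => hs_par b (T (b j))).mul_left B
  refine hasSum_le (fun k => ?_) h2 h3
  have h4 := key b J u hB hP hu (ContinuousLinearMap.adjoint T (b k))
  have h5 : ∀ y : H, ⟪ContinuousLinearMap.adjoint T (b k), y⟫_ℝ = ⟪b k, T y⟫_ℝ := fun y =>
    ContinuousLinearMap.adjoint_inner_left T y (b k)
  have h6 : ∀ j, ⟪b j, ContinuousLinearMap.adjoint T (b k)⟫_ℝ = ⟪b k, T (b j)⟫_ℝ := fun j => by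
    rw [real_inner_comm, h5]
  simp only [h5, h6] at h4
  exact h4

end Pool.Agent.BEL.H62
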